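import Pool.Agent.H329R3.NU.Stmts
import Pool.Agent.H329R3.PM.TaskRad
import Pool.Agent.H329R3.PM.TaskGrad
import Pool.Agent.H329R3.PM.TaskGrad0
import Pool.Agent.H329R3.PM.Der
import Pool.Agent.H595R3.PM_KInt

/-!
# H329-NU, TaskPotForm: the kernel integral and its gradient for each time
-/

open MeasureTheory Set Filter Topology
open scoped RealInnerProductSpace

set_option autoImplicit false

namespace Pool.Agent.H623R3.NU

open Pool.Agent.H329R3.PM Pool.Agent.H329R3.NU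

theorem prof_slice {A κ ε : ℝ} {w : ℝ × ℝ → ℝ} (hw : CoreSol A κ ε w) (t : ℝ) :
    Prof (fun ρ => w (ρ, t)) where
  meas := hw.meas.comp (by fun_prop)
  nonneg y := hw.nonneg _
  bdd := by
    obtain ⟨B, hB⟩ := hw.bdd
    exact ⟨B, fun y => hB _⟩
  supp y hy := hw.supp (y, t) hy

theorem grad_all (v : ℝ → ℝ) (hv : Prof v) (z : E 3) :
    HasGradientAt (PP v) ((-(4 * Real.pi) * Sop kk v ‖z‖) • z) z := by
  by_cases hz : z = 0
  · subst hz
    rw [smul_zero]
    exact taskGrad0 TRad.t v hv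
  · exact taskGrad TRad.t DerTask.der_ok Pool.Agent.H595R3.PMKInt.taskKInt v hv z hz

theorem taskPotForm : TaskPotForm := by
  intro κ ε w hκ hw t
  set v : ℝ → ℝ := fun ρ => w (ρ, t) with hvdef
  have hv : Prof v := prof_slice hw t
  set c : ℝ := Real.exp (-κ * t) with hcdef
  have hc : 0 < c := Real.exp_pos _
  have hc0 : c ≠ 0 := hc.ne'
  set K : ℝ := (c⁻¹) ^ (-(3 / 2) : ℝ) * Real.exp (-3 * κ * t) with hK
  have hfun : ∀ x : E 3, (fun y : E 3 => ‖x - y‖ ^ (-(3 / 2) : ℝ) * uu κ w (y, t)) =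
      fun y => K * (fun z : E 3 => ‖c • x - z‖ ^ (-(3 / 2) : ℝ) * v ‖z‖) (c • y) := by
    intro x
    funext y
    have h1 : ‖x - y‖ = c⁻¹ * ‖c • x - c • y‖ := by
      rw [← smul_sub, norm_smul, Real.norm_of_nonneg hc.le, ← mul_assoc, inv_mul_cancel₀ hc0,
        one_mul]
    have h2 : ‖x - y‖ ^ (-(3 / 2) : ℝ) =
        (c⁻¹) ^ (-(3 / 2) : ℝ) * ‖c • x - c • y‖ ^ (-(3 / 2) : ℝ) := by
      rw [h1, Real.mul_rpow (inv_pos.2 hc).le (norm_nonneg _)]
    have h3 : uu κ w (y, t) = Real.exp (-3 * κ * t) * v ‖c • y‖ := by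
      simp only [uu, hvdef]
      rw [norm_smul, Real.norm_of_nonneg hc.le, mul_comm c ‖y‖]
    simp only
    rw [h2, h3, hK]
    ring
  have hpot : ∀ x : E 3, ∫ y : E 3, ‖x - y‖ ^ (-(3 / 2) : ℝ) * uu κ w (y, t) =
      (K * |(c ^ 3)⁻¹|) * PP v (c • x) := by
    intro x
    unfold PP
    rw [hfun x, integral_const_mul]
    rw [Measure.integral_comp_smul volume
      (fun z : E 3 => ‖c • x - z‖ ^ (-(3 / 2) : ℝ) * v ‖z‖) c]
    simp only [finrank_euclideanSpace, Fintype.card_fin, smul_eq_mul]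
    ring
  refine ⟨fun x => ?_, fun x => ?_⟩
  · rw [hfun x]
    refine Integrable.const_mul ?_ K
    exact (integrable_comp_smul_iff volume _ hc0).2 (TRad.t v hv (c • x)).1
  · have hKc : K * |(c ^ 3)⁻¹| * c * c = Real.exp (-(7 / 2) * κ * t) := by
      have e1 : (c⁻¹) ^ (-(3 / 2) : ℝ) = Real.exp (-κ * t * (3 / 2)) := by
        rw [Real.inv_rpow hc.le, ← Real.rpow_neg hc.le, neg_neg, hcdef, ← Real.exp_mul]
      have e2 : |(c ^ 3)⁻¹| = Real.exp (3 * (κ * t)) := by
        rw [abs_of_pos (by positivity), hcdef, ← Real.exp_nat_mul, ← Real.exp_neg]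
        congr 1
        push_cast
        ring
      rw [hK, e1, e2, hcdef, ← Real.exp_add, ← Real.exp_add, ← Real.exp_add, ← Real.exp_add]
      congr 1
      ring
    have hg := (grad_all v hv (c • x)).hasFDerivAt
    have hlin : HasFDerivAt (fun y : E 3 => c • y) (c • ContinuousLinearMap.id ℝ (E 3)) x :=
      (hasFDerivAt_id x).const_smul c
    have hcomp := (hg.comp x hlin).const_mul (cc * (K * |(c ^ 3)⁻¹|))
    have hfe : (fun x : E 3 => cc * ∫ y : E 3, ‖x - y‖ ^ (-(3 / 2) : ℝ) * uu κ w (y, t)) =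
        fun x => (cc * (K * |(c ^ 3)⁻¹|)) * PP v (c • x) := by
      funext x
      rw [hpot x]
      ring
    have hnorm : ‖c • x‖ = ‖x‖ * Real.exp (-κ * t) := by
      rw [norm_smul, Real.norm_of_nonneg hc.le, mul_comm]
    rw [hasGradientAt_iff_hasFDerivAt, hfe]
    refine hcomp.congr_fderiv ?_
    ext u
    simp only [GG, AA, smul_apply, ContinuousLinearMap.comp_apply,
      ContinuousLinearMap.id_apply, InnerProductSpace.toDual_apply_apply, smul_eq_mul,
      inner_smul_right, inner_smul_left, RCLike.conj_to_real]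
    rw [← hKc, hnorm]
    ring

end Pool.Agent.H623R3.NU
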