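import Mathlib
import Pool.Agent.H39R3.PB.Basic
import Pool.Agent.H316R2.LS

/-!
# Task T8 of the palindrome project in base b: counting by exponential sums (port of H276R2.PalT8)
-/

set_option autoImplicit false

namespace Pool.Agent.H623R3.PBT8

open Finset Filter Topology Pool.Agent.Helper112 Pool.Agent.H39R3.PB

/-- orthogonality -/
lemma orth {q : ℕ} (hq : 0 < q) (n h : ℕ) :
    ∑ a ∈ range q, ee ((a : ℝ) * (((n : ℝ) - h) / q)) = if n ≡ h [MOD q] then (q : ℂ) else 0 := by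
  have hq' : (q : ℝ) ≠ 0 := by exact_mod_cast hq.ne'
  split_ifs with hm
  · obtain ⟨k, hk⟩ : ∃ k : ℤ, (n : ℤ) - h = q * k := by
      have := (Nat.modEq_iff_dvd.1 hm.symm)
      obtain ⟨k, hk⟩ := this
      exact ⟨k, hk⟩
    have hk' : ((n : ℝ) - h) / q = k := by
      have : ((n : ℝ) - h) = q * k := by exact_mod_cast hk
      rw [this]
      field_simp
    rw [sum_congr rfl (g := fun _ => (1 : ℂ))]
    · simp
    · intro a _
      rw [hk']
      have : (a : ℝ) * (k : ℝ) = ((a * k : ℤ) : ℝ) := by push_cast; ring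
      rw [this, ls_ee_int]
  · set w : ℂ := ee (((n : ℝ) - h) / q) with hw
    have h1 : ∀ a ∈ range q, ee ((a : ℝ) * (((n : ℝ) - h) / q)) = w ^ a := fun a _ =>
      ls_ee_nat_mul a _
    rw [sum_congr rfl h1]
    have hne : w ≠ 1 := by
      intro h1
      obtain ⟨k, hk⟩ := ls_ee_eq_one h1
      apply hm
      apply (Nat.modEq_iff_dvd.2 _).symm
      refine ⟨k, ?_⟩
      rw [div_eq_iff hq'] at hk
      have : ((n : ℝ) - h) = q * k := by rw [hk]; ring
      exact_mod_cast this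
    have hwq : w ^ q = 1 := by
      rw [hw, ← ls_ee_nat_mul]
      have : (q : ℝ) * (((n : ℝ) - h) / q) = (((n : ℤ) - (h : ℤ) : ℤ) : ℝ) := by
        push_cast
        field_simp
      rw [this, ls_ee_int]
    have := geom_sum_eq hne q
    rw [this, hwq, sub_self, zero_div]

/-- the exponential sum over palindromes is a product -/
lemma norm_sum_pv {b : ℕ} (hb : 0 < b) (L : ℕ) (α : ℝ) :
    ‖∑ m : Fin L → Fin b, ee (α * (pv b L m : ℝ))‖ = (b : ℝ) ^ L * Ps b L 0 L α := by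
  have hbr : (b : ℝ) ≠ 0 := by exact_mod_cast hb.ne'
  have h1 : ∀ m : Fin L → Fin b, ee (α * (pv b L m : ℝ)) =
      ee (α * ((b : ℝ) ^ (2 * L) + 1)) * ∏ c : Fin L, ee (((m c : ℕ) : ℝ) * (fr b L c * α)) := by
    intro m
    have h2 : ∏ c : Fin L, ee (((m c : ℕ) : ℝ) * (fr b L c * α)) =
        ee (∑ c : Fin L, ((m c : ℕ) : ℝ) * (fr b L c * α)) := by
      have : ∀ s : Finset (Fin L), ∏ c ∈ s, ee (((m c : ℕ) : ℝ) * (fr b L c * α)) =
          ee (∑ c ∈ s, ((m c : ℕ) : ℝ) * (fr b L c * α)) := by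
        intro s
        induction s using Finset.induction_on with
        | empty => simp [ls_ee_zero]
        | insert a s ha ih => rw [prod_insert ha, sum_insert ha, ls_ee_add, ih]
      exact this univ
    rw [h2, ← ls_ee_add]
    congr 1
    unfold pv
    push_cast
    rw [mul_add, mul_sum]
    congr 1
    refine sum_congr rfl fun c _ => ?_
    ring
  rw [sum_congr rfl (fun m _ => h1 m), ← mul_sum, norm_mul, ls_norm_ee, one_mul]
  have h3 : ∑ m : Fin L → Fin b, ∏ c : Fin L, ee (((m c : ℕ) : ℝ) * (fr b L c * α)) =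
      ∏ c : Fin L, ∑ x : Fin b, ee (((x : ℕ) : ℝ) * (fr b L c * α)) := by
    rw [Finset.prod_univ_sum, Fintype.piFinset_univ]
  rw [h3, norm_prod]
  have h4 : ∀ c : Fin L, ‖∑ x : Fin b, ee (((x : ℕ) : ℝ) * (fr b L c * α))‖ =
      b * ph b (fr b L (0 + (c : ℕ)) * α) := by
    intro c
    rw [Fin.sum_univ_eq_sum_range (fun x : ℕ => ee ((x : ℝ) * (fr b L c * α))) b, ph, zero_add,
      mul_div_cancel₀ _ hbr]
  rw [prod_congr rfl (fun c _ => h4 c), prod_mul_distrib, prod_const, card_univ, Fintype.card_fin]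
  congr 1
  unfold Ps
  rw [Fin.prod_univ_eq_prod_range (fun j => ph b (fr b L (0 + j) * α)) L]

/-- grouping the fractions by their reduced denominator -/
lemma group {q : ℕ} (hq : 0 < q) (f : ℝ → ℝ) :
    ∑ a ∈ range q, f ((a : ℝ) / q) =
      ∑ d ∈ q.divisors, ∑ a ∈ (range d).filter (fun a => a.Coprime d), f ((a : ℝ) / d) := by
  rw [sum_sigma']
  symm
  have key : ∀ x : (_ : ℕ) × ℕ, x ∈ q.divisors.sigma (fun d => (range d).filter
      (fun a => a.Coprime d)) → ∃ e : ℕ, 0 < e ∧ 0 < x.1 ∧ q = x.1 * e ∧ q / x.1 = e ∧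
        x.2 < x.1 ∧ x.2.Coprime x.1 := by
    rintro ⟨d, a⟩ h
    rw [mem_sigma, mem_filter, mem_range, Nat.mem_divisors] at h
    obtain ⟨⟨⟨e, he⟩, _⟩, ha, hc⟩ := h
    simp only at ha hc he ⊢
    have hd0 : 0 < d := by
      rcases Nat.eq_zero_or_pos d with h0 | h0
      · subst h0; simp at ha
      · exact h0
    have he0 : 0 < e := by
      rcases Nat.eq_zero_or_pos e with h0 | h0
      · subst h0; simp at he; omega
      · exact h0
    exact ⟨e, he0, hd0, he, by rw [he, Nat.mul_div_cancel_left _ hd0], ha, hc⟩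
  refine sum_bij' (fun x _ => x.2 * (q / x.1)) (fun a _ => ⟨q / a.gcd q, a / a.gcd q⟩) ?_ ?_ ?_ ?_ ?_
  · intro x h
    obtain ⟨e, he0, hd0, he, hqe, ha, hc⟩ := key x h
    rw [mem_range, hqe, he]
    exact Nat.mul_lt_mul_of_pos_right ha he0
  · intro a h
    rw [mem_range] at h
    have hg : 0 < a.gcd q := Nat.gcd_pos_of_pos_right _ hq
    rw [mem_sigma, mem_filter, mem_range, Nat.mem_divisors]
    refine ⟨⟨Nat.div_dvd_of_dvd (Nat.gcd_dvd_right a q), hq.ne'⟩, ?_, ?_⟩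
    · exact Nat.div_lt_div_of_lt_of_dvd (Nat.gcd_dvd_right a q) h
    · exact Nat.coprime_div_gcd_div_gcd hg
  · intro x h
    obtain ⟨e, he0, hd0, he, hqe, ha, hc⟩ := key x h
    have hgcd : (x.2 * (q / x.1)).gcd q = e := by
      rw [hqe, he, Nat.gcd_mul_right, hc, one_mul]
    refine Sigma.ext ?_ (heq_of_eq ?_)
    · simp only
      rw [hgcd, he, Nat.mul_div_cancel _ he0]
    · simp only
      rw [hgcd, hqe, Nat.mul_div_cancel _ he0]
  · intro a h
    have hg : 0 < a.gcd q := Nat.gcd_pos_of_pos_right _ hq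
    simp only
    rw [Nat.div_div_self (Nat.gcd_dvd_right a q) hq.ne', Nat.div_mul_cancel (Nat.gcd_dvd_left a q)]
  · intro x h
    obtain ⟨e, he0, hd0, he, hqe, ha, hc⟩ := key x h
    congr 1
    rw [hqe]
    have h1 : (x.1 : ℝ) ≠ 0 := by exact_mod_cast hd0.ne'
    have h2 : (e : ℝ) ≠ 0 := by exact_mod_cast he0.ne'
    have h3 : (q : ℝ) = x.1 * e := by exact_mod_cast he
    rw [h3]
    push_cast
    field_simp

lemma coprime_pos {b q : ℕ} (hq : q.Coprime (2 * b)) : 0 < q := by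
  rcases Nat.eq_zero_or_pos q with h0 | h0
  · subst h0
    rw [Nat.coprime_zero_left] at hq
    omega
  · exact h0

/-- T8a: counting by exponential sums -/
theorem cnt_bound {b : ℕ} (hb : 0 < b) (L q h : ℕ) (hq : q.Coprime (2 * b)) :
    |cnt b L q h - (b : ℝ) ^ L / q| ≤ (b : ℝ) ^ L / q * ∑ d ∈ q.divisors.filter (fun d => 1 < d), U b L d := by
  have hq0 := coprime_pos hq
  have hqr : (0 : ℝ) < q := by exact_mod_cast hq0
  have hqc : (q : ℂ) ≠ 0 := by exact_mod_cast hq0.ne'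
  -- Fourier expansion
  set T : ℕ → ℂ := fun a => ee (-(a * (h : ℝ) / q)) * ∑ m : Fin L → Fin b,
    ee ((a : ℝ) / q * (pv b L m : ℝ)) with hT
  have h1 : (cnt b L q h : ℂ) = (1 / (q : ℂ)) * ∑ a ∈ range q, T a := by
    have h2 : (cnt b L q h : ℂ) = ∑ m : Fin L → Fin b,
        (1 / (q : ℂ)) * ∑ a ∈ range q, ee ((a : ℝ) * ((((pv b L m : ℕ) : ℝ) - h) / q)) := by
      unfold cnt
      rw [Finset.card_filter]
      push_cast
      refine sum_congr rfl fun m _ => ?_
      rw [orth hq0]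
      split_ifs with hm
      · push_cast
        field_simp
      · simp
    rw [h2, ← mul_sum, sum_comm]
    congr 1
    refine sum_congr rfl fun a _ => ?_
    simp only [hT]
    rw [mul_sum]
    refine sum_congr rfl fun m _ => ?_
    rw [← ls_ee_add]
    congr 1
    ring
  have hT0 : T 0 = (b : ℂ) ^ L := by
    simp only [hT]
    simp [ls_ee_zero]
  have hTn : ∀ a, ‖T a‖ = (b : ℝ) ^ L * Ps b L 0 L ((a : ℝ) / q) := by
    intro a
    simp only [hT]
    rw [norm_mul, ls_norm_ee, one_mul, norm_sum_pv hb]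
  obtain ⟨p, hp⟩ : ∃ p, q = p + 1 := ⟨q - 1, by omega⟩
  have h3 : (cnt b L q h : ℂ) - (b : ℂ) ^ L / q = (1 / (q : ℂ)) * ∑ a ∈ (range q).erase 0, T a := by
    rw [h1, ← Finset.add_sum_erase _ _ (mem_range.2 hq0), hT0]
    ring
  have h4 : |cnt b L q h - (b : ℝ) ^ L / q| ≤ (1 / (q : ℝ)) * ∑ a ∈ (range q).erase 0,
      (b : ℝ) ^ L * Ps b L 0 L ((a : ℝ) / q) := by
    have h5 : |cnt b L q h - (b : ℝ) ^ L / q| = ‖(cnt b L q h : ℂ) - (b : ℂ) ^ L / q‖ := by
      rw [← Real.norm_eq_abs, ← Complex.norm_real]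
      push_cast
      rfl
    rw [h5, h3, norm_mul]
    have h6 : ‖(1 / (q : ℂ))‖ = 1 / (q : ℝ) := by simp
    rw [h6]
    refine mul_le_mul_of_nonneg_left ?_ (by positivity)
    refine (norm_sum_le _ _).trans (le_of_eq ?_)
    exact sum_congr rfl fun a _ => hTn a
  refine h4.trans (le_of_eq ?_)
  rw [← mul_sum]
  have h7 : ∑ a ∈ (range q).erase 0, Ps b L 0 L ((a : ℝ) / q) =
      ∑ d ∈ q.divisors.filter (fun d => 1 < d), U b L d := by
    have h8 := group hq0 (Ps b L 0 L)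
    rw [← Finset.add_sum_erase _ _ (mem_range.2 hq0)] at h8
    have h9 : q.divisors.filter (fun d => 1 < d) = q.divisors.erase 1 := by
      ext d
      rw [mem_filter, mem_erase, Nat.mem_divisors]
      constructor
      · rintro ⟨h1, h2⟩
        exact ⟨by omega, h1⟩
      · rintro ⟨h1, h2⟩
        refine ⟨h2, ?_⟩
        have := Nat.pos_of_dvd_of_pos h2.1 hq0
        omega
    have h10 : (1 : ℕ) ∈ q.divisors := Nat.one_mem_divisors.2 hq0.ne'
    rw [← Finset.add_sum_erase _ _ h10] at h8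
    have h11 : ∑ a ∈ (range 1).filter (fun a => a.Coprime 1), Ps b L 0 L ((a : ℝ) / (1 : ℕ)) =
        Ps b L 0 L (((0 : ℕ) : ℝ) / q) := by
      simp
    rw [h11] at h8
    rw [h9]
    unfold U
    linarith
  rw [h7]
  ring

lemma U_nonneg (b L q : ℕ) : 0 ≤ U b L q := by
  unfold U
  exact sum_nonneg fun _ _ => Ps_nonneg _ _ _ _ _

/-- the double sum over multiples -/
lemma double (b L D : ℕ) :
    ∑ q ∈ (Icc 1 D).filter (fun q => q.Coprime (2 * b)),
      (q.divisors.card : ℝ) ^ 2 * ((b : ℝ) ^ L / q * ∑ d ∈ q.divisors.filter (fun d => 1 < d), U b L d) ≤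
    (b : ℝ) ^ L * ((∑ d ∈ (Icc 2 D).filter (fun q => q.Coprime (2 * b)),
      (d.divisors.card : ℝ) ^ 2 * U b L d / d) *
        ∑ e ∈ Icc 1 D, (e.divisors.card : ℝ) ^ 2 / e) := by
  have h1 : ∀ q ∈ (Icc 1 D).filter (fun q => q.Coprime (2 * b)),
      (q.divisors.card : ℝ) ^ 2 * ((b : ℝ) ^ L / q * ∑ d ∈ q.divisors.filter (fun d => 1 < d), U b L d) ≤
      ∑ d ∈ q.divisors.filter (fun d => 1 < d), (b : ℝ) ^ L * (((d.divisors.card : ℝ) ^ 2 * U b L d / d) *
        (((q / d).divisors.card : ℝ) ^ 2 / ((q / d : ℕ) : ℝ))) := by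
    intro q hq
    rw [mem_filter, mem_Icc] at hq
    have hq0 : 0 < q := hq.1.1
    rw [mul_sum, mul_sum]
    refine sum_le_sum fun d hd => ?_
    rw [mem_filter, Nat.mem_divisors] at hd
    obtain ⟨⟨⟨e, he⟩, _⟩, hd1⟩ := hd
    have hd0 : 0 < d := by omega
    have he0 : 0 < e := by
      rcases Nat.eq_zero_or_pos e with h0 | h0
      · subst h0; simp at he; omega
      · exact h0
    have hqd : q / d = e := by rw [he, Nat.mul_div_cancel_left _ hd0]
    rw [hqd, he]
    have hd' : (0 : ℝ) < d := by exact_mod_cast hd0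
    have he' : (0 : ℝ) < e := by exact_mod_cast he0
    have ht : ((d * e).divisors.card : ℝ) ≤ (d.divisors.card : ℝ) * e.divisors.card := by
      exact_mod_cast Pool.Agent.H316R2.tau_mul_le d e
    have ht2 : ((d * e).divisors.card : ℝ) ^ 2 ≤
        ((d.divisors.card : ℝ) * e.divisors.card) ^ 2 := by gcongr
    have hU := U_nonneg b L d
    push_cast
    calc ((d * e).divisors.card : ℝ) ^ 2 * ((b : ℝ) ^ L / (d * e) * U b L d)
        ≤ ((d.divisors.card : ℝ) * e.divisors.card) ^ 2 * ((b : ℝ) ^ L / (d * e) * U b L d) := by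
          gcongr
      _ = _ := by
          field_simp
  refine (sum_le_sum h1).trans ?_
  rw [sum_sigma', sum_mul_sum, mul_sum]
  simp_rw [mul_sum]
  rw [sum_sigma' (s := (Icc 2 D).filter (fun q => q.Coprime (2 * b))) (t := fun _ => Icc 1 D)]
  -- injection `(q, d) ↦ (d, q / d)`
  set g : (_ : ℕ) × ℕ → (_ : ℕ) × ℕ := fun x => ⟨x.2, x.1 / x.2⟩ with hg
  set F : (_ : ℕ) × ℕ → ℝ := fun x => (b : ℝ) ^ L * (((x.1.divisors.card : ℝ) ^ 2 * U b L x.1 / x.1) *
        ((x.2.divisors.card : ℝ) ^ 2 / (x.2 : ℝ))) with hF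
  have hinj : Set.InjOn g (((Icc 1 D).filter (fun q => q.Coprime (2 * b))).sigma
      (fun q => q.divisors.filter (fun d => 1 < d)) : Finset ((_ : ℕ) × ℕ)) := by
    rintro ⟨q, d⟩ hx ⟨q', d'⟩ hx' hxx
    rw [Finset.mem_coe, mem_sigma, mem_filter, mem_filter, Nat.mem_divisors] at hx hx'
    simp only [hg, Sigma.mk.injEq, heq_eq_eq] at hxx
    obtain ⟨h1, h2⟩ := hxx
    simp only at hx hx'
    subst h1
    have h3 : q = q' := by
      rw [← Nat.div_mul_cancel hx.2.1.1, h2, Nat.div_mul_cancel hx'.2.1.1]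
    subst h3
    rfl
  have hsum : ∑ x ∈ ((Icc 1 D).filter (fun q => q.Coprime (2 * b))).sigma
      (fun q => q.divisors.filter (fun d => 1 < d)), F (g x) =
      ∑ y ∈ (((Icc 1 D).filter (fun q => q.Coprime (2 * b))).sigma
      (fun q => q.divisors.filter (fun d => 1 < d))).image g, F y := by
    rw [sum_image hinj]
  have hgoal : ∑ x ∈ ((Icc 1 D).filter (fun q => q.Coprime (2 * b))).sigma
      (fun q => q.divisors.filter (fun d => 1 < d)), F (g x) ≤
      ∑ y ∈ ((Icc 2 D).filter (fun q => q.Coprime (2 * b))).sigma (fun _ => Icc 1 D), F y := by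
    rw [hsum]
    refine sum_le_sum_of_subset_of_nonneg ?_ ?_
    · intro y hy
      rw [mem_image] at hy
      obtain ⟨⟨q, d⟩, hx, rfl⟩ := hy
      rw [mem_sigma, mem_filter, mem_filter, Nat.mem_divisors, mem_Icc] at hx
      simp only at hx
      obtain ⟨⟨⟨hq1, hqD⟩, hqc⟩, ⟨hdq, _⟩, hd1⟩ := hx
      rw [mem_sigma, mem_filter, mem_Icc, mem_Icc]
      simp only [hg]
      have hle := Nat.le_of_dvd hq1 hdq
      refine ⟨⟨⟨hd1, hle.trans hqD⟩, Nat.Coprime.coprime_dvd_left hdq hqc⟩, ?_, ?_⟩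
      · exact Nat.div_pos hle (by omega)
      · exact (Nat.div_le_self _ _).trans hqD
    · intro y _ _
      simp only [hF]
      have := U_nonneg b L y.1
      positivity
  exact hgoal

/-- T8b from the statement of T7 -/
theorem taskT8 : TaskT8 := by
  intro b hb hU ε hε A
  have hb0 : 0 < b := by omega
  have hbr : (0 : ℝ) < b := by exact_mod_cast hb0
  have hb1 : (1 : ℝ) ≤ b := by exact_mod_cast hb0
  filter_upwards [hU ε hε (A + 5), eventually_ge_atTop ((b + 1) ^ 4)] with L hL hLb h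
  set D := ⌊(b : ℝ) ^ ((1 / 2 - ε) * L)⌋₊ with hD
  have hLb' : ((b : ℝ) + 1) ^ 4 ≤ L := by exact_mod_cast hLb
  have hL1 : (1 : ℝ) ≤ L := by
    have : (1 : ℝ) ≤ ((b : ℝ) + 1) ^ 4 := one_le_pow₀ (by linarith)
    linarith
  have hL0 : (0 : ℝ) < L := by linarith
  have h1 : ∑ q ∈ (Icc 1 D).filter (fun q => q.Coprime (2 * b)),
      (q.divisors.card : ℝ) ^ 2 * |cnt b L q (h q) - (b : ℝ) ^ L / q| ≤
      ∑ q ∈ (Icc 1 D).filter (fun q => q.Coprime (2 * b)),
      (q.divisors.card : ℝ) ^ 2 *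
        ((b : ℝ) ^ L / q * ∑ d ∈ q.divisors.filter (fun d => 1 < d), U b L d) := by
    refine sum_le_sum fun q hq => ?_
    rw [mem_filter] at hq
    exact mul_le_mul_of_nonneg_left (cnt_bound hb0 L q (h q) hq.2) (by positivity)
  have h2 := h1.trans (double b L D)
  have h3 := Pool.Agent.H316R2.tau_sq_sum_le D
  have hlog : 1 + Real.log D ≤ (b + 1) * L := by
    rcases Nat.eq_zero_or_pos D with h0 | h0
    · rw [h0]
      simp only [Nat.cast_zero, Real.log_zero, add_zero]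
      nlinarith
    · have hDle : (D : ℝ) ≤ (b : ℝ) ^ ((1 / 2 - ε) * L) := Nat.floor_le (by positivity)
      have hDle2 : (D : ℝ) ≤ (b : ℝ) ^ ((1 / 2 : ℝ) * L) := by
        refine hDle.trans (Real.rpow_le_rpow_of_exponent_le hb1 ?_)
        nlinarith
      have h4 : Real.log D ≤ (1 / 2 * L) * Real.log b := by
        rw [← Real.log_rpow hbr]
        exact Real.log_le_log (by exact_mod_cast h0) hDle2
      have h5 : Real.log b ≤ b := by
        have := Real.log_le_sub_one_of_pos hbr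
        linarith
      have h6 : (1 / 2 * L) * Real.log b ≤ (1 / 2 * L) * (b : ℝ) :=
        mul_le_mul_of_nonneg_left h5 (by positivity)
      nlinarith [mul_pos hbr hL0]
  have hlog0 : 0 ≤ 1 + Real.log D := by
    have := Real.log_natCast_nonneg D
    linarith
  have h4 : ∑ e ∈ Icc 1 D, (e.divisors.card : ℝ) ^ 2 / e ≤ ((b : ℝ) + 1) ^ 4 * (L : ℝ) ^ 4 := by
    refine h3.trans ?_
    calc (1 + Real.log D) ^ 4 ≤ (((b : ℝ) + 1) * (L : ℝ)) ^ 4 := by gcongr
      _ = ((b : ℝ) + 1) ^ 4 * (L : ℝ) ^ 4 := by ring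
  refine h2.trans ?_
  have hS0 : 0 ≤ ∑ e ∈ Icc 1 D, (e.divisors.card : ℝ) ^ 2 / e :=
    sum_nonneg fun _ _ => by positivity
  calc (b : ℝ) ^ L * ((∑ d ∈ (Icc 2 D).filter (fun q => q.Coprime (2 * b)),
      (d.divisors.card : ℝ) ^ 2 * U b L d / d) *
        ∑ e ∈ Icc 1 D, (e.divisors.card : ℝ) ^ 2 / e)
      ≤ (b : ℝ) ^ L * ((1 / (L : ℝ) ^ (A + 5)) * (((b : ℝ) + 1) ^ 4 * (L : ℝ) ^ 4)) :=
        mul_le_mul_of_nonneg_left (mul_le_mul hL h4 hS0 (by positivity)) (by positivity)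
    _ ≤ (b : ℝ) ^ L / (L : ℝ) ^ A := by
        generalize ((b : ℝ) + 1) ^ 4 = B at hLb'
        have h5 : (1 / (L : ℝ) ^ (A + 5)) * (B * (L : ℝ) ^ 4) = B / L * (1 / (L : ℝ) ^ A) := by
          have hy : ((L : ℝ) ^ A) ≠ 0 := by positivity
          have hx : (L : ℝ) ≠ 0 := hL0.ne'
          rw [pow_add]
          generalize (L : ℝ) ^ A = y at hy
          generalize (L : ℝ) = x at hx
          field_simp
        rw [h5]
        have h6 : B / (L : ℝ) ≤ 1 := by rw [div_le_one hL0]; exact hLb'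
        have h7 : (0 : ℝ) < 1 / (L : ℝ) ^ A := by positivity
        calc (b : ℝ) ^ L * (B / L * (1 / (L : ℝ) ^ A))
            ≤ (b : ℝ) ^ L * (1 * (1 / (L : ℝ) ^ A)) := by gcongr
          _ = _ := by ring

end Pool.Agent.H623R3.PBT8
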