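import Pool.Agent.H972ST.Stmts

/-!
# H972-ST, TPair: pairs of integers with given parities and bounded sum of absolute values
-/

set_option autoImplicit false

namespace Pool.Agent.H623R3.STPair

open Finset Pool.Agent.H972ST

theorem abs_iff (a b m : ℤ) :
    |a| + |b| ≤ m ↔ a + b ≤ m ∧ -m ≤ a + b ∧ a - b ≤ m ∧ -m ≤ a - b := by
  rcases abs_cases a with ⟨h, h'⟩ | ⟨h, h'⟩ <;> rcases abs_cases b with ⟨k, k'⟩ | ⟨k, k'⟩ <;>
    rw [h, k] <;> omega

/-- a residue class modulo four in `[-m, m]` -/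
noncomputable def Ar (m : ℕ) (r : ℤ) : Finset ℤ := (Icc (-(m : ℤ)) m).filter fun u => u % 4 = r

theorem Ar_succ (m : ℕ) (r : ℤ) : (Ar (m + 1) r).card = (Ar m r).card +
    ((if ((m : ℤ) + 1) % 4 = r then 1 else 0) + if (-((m : ℤ) + 1)) % 4 = r then 1 else 0) := by
  have h : Icc (-((m + 1 : ℕ) : ℤ)) ((m + 1 : ℕ) : ℤ) =
      insert ((m : ℤ) + 1) (insert (-((m : ℤ) + 1)) (Icc (-(m : ℤ)) m)) := by
    ext x
    simp only [mem_Icc, mem_insert]
    push_cast
    omega
  have h1 : (-((m : ℤ) + 1)) ∉ Icc (-(m : ℤ)) m := by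
    simp only [mem_Icc]
    omega
  have h2 : ((m : ℤ) + 1) ∉ insert (-((m : ℤ) + 1)) (Icc (-(m : ℤ)) m) := by
    simp only [mem_Icc, mem_insert]
    omega
  unfold Ar
  rw [h, filter_insert, filter_insert]
  have h3 : (-((m : ℤ) + 1)) ∉ (Icc (-(m : ℤ)) m).filter fun u => u % 4 = r :=
    fun hh => h1 (mem_filter.1 hh).1
  have h4 : ((m : ℤ) + 1) ∉ insert (-((m : ℤ) + 1)) ((Icc (-(m : ℤ)) m).filter fun u => u % 4 = r) := by
    intro hh
    rw [mem_insert] at hh
    rcases hh with hh | hh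
    · omega
    · exact h2 (mem_insert_of_mem (mem_filter.1 hh).1)
  have h5 : ((m : ℤ) + 1) ∉ ((Icc (-(m : ℤ)) m).filter fun u => u % 4 = r) := fun hh =>
    h4 (mem_insert_of_mem hh)
  split_ifs with g1 g2 g2
  · rw [card_insert_of_notMem h4, card_insert_of_notMem h3]
  · rw [card_insert_of_notMem h5]
  · rw [card_insert_of_notMem h3]
  · rfl

theorem card_A0 (m : ℕ) : (Ar m 0).card = 2 * (m / 4) + 1 := by
  induction m with
  | zero => decide
  | succ m ih =>
    rw [Ar_succ, ih]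
    split_ifs <;> omega

theorem card_A2 (m : ℕ) : (Ar m 2).card = 2 * ((m + 2) / 4) := by
  induction m with
  | zero => decide
  | succ m ih =>
    rw [Ar_succ, ih]
    split_ifs <;> omega

theorem card_A1 (m : ℕ) : (Ar m 1).card = (m + 1) / 2 := by
  induction m with
  | zero => decide
  | succ m ih =>
    rw [Ar_succ, ih]
    split_ifs <;> omega

theorem card_A3 (m : ℕ) : (Ar m 3).card = (m + 1) / 2 := by
  induction m with
  | zero => decide
  | succ m ih =>
    rw [Ar_succ, ih]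
    split_ifs <;> omega

/-- the pairs as two products of residue classes -/
theorem card_Pr (m : ℕ) (a b r s r' s' : ℤ)
    (h1 : ∀ x y : ℤ, x % 2 = a → y % 2 = b →
      ((x + y) % 4 = r ∧ (x - y) % 4 = s) ∨ ((x + y) % 4 = r' ∧ (x - y) % 4 = s'))
    (h2 : ∀ u v : ℤ, ((u % 4 = r ∧ v % 4 = s) ∨ (u % 4 = r' ∧ v % 4 = s')) →
      (u + v) % 2 = 0 ∧ ((u + v) / 2) % 2 = a ∧ ((u - v) / 2) % 2 = b)
    (hne : r ≠ r') :
    (Pr m a b).card = (Ar m r).card * (Ar m s).card + (Ar m r').card * (Ar m s').card := by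
  have hd : Disjoint (Ar m r ×ˢ Ar m s) (Ar m r' ×ˢ Ar m s') := by
    rw [Finset.disjoint_left]
    rintro ⟨u, v⟩ hu hv
    rw [mem_product] at hu hv
    have e1 := (mem_filter.1 hu.1).2
    have e2 := (mem_filter.1 hv.1).2
    exact hne (e1.symm.trans e2)
  rw [← card_product, ← card_product, ← card_union_of_disjoint hd]
  refine card_nbij' (fun p => (p.1 + p.2, p.1 - p.2)) (fun q => ((q.1 + q.2) / 2, (q.1 - q.2) / 2))
    ?_ ?_ ?_ ?_
  · rintro ⟨x, y⟩ hx
    simp only [Pr, coe_filter, mem_product, mem_Icc, Set.mem_ofPred_eq] at hx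
    obtain ⟨-, hxy, ha, hb⟩ := hx
    rw [abs_iff] at hxy
    simp only [Ar, coe_union, coe_product, coe_filter, Set.mem_union, Set.mem_prod,
      Set.mem_ofPred_eq, mem_Icc]
    rcases h1 x y ha hb with h | h
    · left
      exact ⟨⟨⟨hxy.2.1, hxy.1⟩, h.1⟩, ⟨⟨hxy.2.2.2, hxy.2.2.1⟩, h.2⟩⟩
    · right
      exact ⟨⟨⟨hxy.2.1, hxy.1⟩, h.1⟩, ⟨⟨hxy.2.2.2, hxy.2.2.1⟩, h.2⟩⟩
  · rintro ⟨u, v⟩ hu
    simp only [Ar, coe_union, coe_product, coe_filter, Set.mem_union, Set.mem_prod,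
      Set.mem_ofPred_eq, mem_Icc] at hu
    have hb : (-(m : ℤ) ≤ u ∧ u ≤ m) ∧ (-(m : ℤ) ≤ v ∧ v ≤ m) := by
      rcases hu with h | h
      · exact ⟨h.1.1, h.2.1⟩
      · exact ⟨h.1.1, h.2.1⟩
    have hr : (u % 4 = r ∧ v % 4 = s) ∨ (u % 4 = r' ∧ v % 4 = s') := by
      rcases hu with h | h
      · exact Or.inl ⟨h.1.2, h.2.2⟩
      · exact Or.inr ⟨h.1.2, h.2.2⟩
    obtain ⟨e, ea, eb⟩ := h2 u v hr
    simp only [Pr, coe_filter, mem_product, mem_Icc, Set.mem_ofPred_eq]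
    rw [abs_iff]
    refine ⟨⟨⟨by omega, by omega⟩, ⟨by omega, by omega⟩⟩, ⟨by omega, by omega, by omega, by omega⟩,
      ea, eb⟩
  · rintro ⟨x, y⟩ -
    simp only [Prod.mk.injEq]
    omega
  · rintro ⟨u, v⟩ hu
    simp only [Ar, coe_union, coe_product, coe_filter, Set.mem_union, Set.mem_prod,
      Set.mem_ofPred_eq, mem_Icc] at hu
    have hr : (u % 4 = r ∧ v % 4 = s) ∨ (u % 4 = r' ∧ v % 4 = s') := by
      rcases hu with h | h
      · exact Or.inl ⟨h.1.2, h.2.2⟩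
      · exact Or.inr ⟨h.1.2, h.2.2⟩
    obtain ⟨e, -, -⟩ := h2 u v hr
    simp only [Prod.mk.injEq]
    omega

theorem tPair : TPair := by
  intro m
  refine ⟨?_, ?_, ?_, ?_⟩
  · rw [card_Pr m 0 0 0 0 2 2 (by omega) (by omega) (by omega), card_A0, card_A2]
    unfold E00
    obtain ⟨q, s, hs, rfl⟩ : ∃ q s, s < 4 ∧ m = 4 * q + s := ⟨m / 4, m % 4, by omega, by omega⟩
    interval_cases s
    · rw [show (4 * q + 0) / 4 = q by omega, show (4 * q + 0 + 2) / 4 = q by omega,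
        show (4 * q + 0) / 2 = 2 * q by omega]
      ring
    · rw [show (4 * q + 1) / 4 = q by omega, show (4 * q + 1 + 2) / 4 = q by omega,
        show (4 * q + 1) / 2 = 2 * q by omega]
      ring
    · rw [show (4 * q + 2) / 4 = q by omega, show (4 * q + 2 + 2) / 4 = q + 1 by omega,
        show (4 * q + 2) / 2 = 2 * q + 1 by omega]
      ring
    · rw [show (4 * q + 3) / 4 = q by omega, show (4 * q + 3 + 2) / 4 = q + 1 by omega,
        show (4 * q + 3) / 2 = 2 * q + 1 by omega]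
      ring
  · rw [card_Pr m 0 1 1 3 3 1 (by omega) (by omega) (by omega), card_A1, card_A3]
    unfold E01
    ring
  · rw [card_Pr m 1 0 1 1 3 3 (by omega) (by omega) (by omega), card_A1, card_A3]
    unfold E01
    ring
  · rw [card_Pr m 1 1 0 2 2 0 (by omega) (by omega) (by omega), card_A0, card_A2]
    unfold E11
    obtain ⟨q, s, hs, rfl⟩ : ∃ q s, s < 4 ∧ m = 4 * q + s := ⟨m / 4, m % 4, by omega, by omega⟩
    interval_cases s
    · rw [show (4 * q + 0) / 4 = q by omega, show (4 * q + 0 + 2) / 4 = q by omega,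
        show (4 * q + 0) / 2 = 2 * q by omega]
      ring
    · rw [show (4 * q + 1) / 4 = q by omega, show (4 * q + 1 + 2) / 4 = q by omega,
        show (4 * q + 1) / 2 = 2 * q by omega]
      ring
    · rw [show (4 * q + 2) / 4 = q by omega, show (4 * q + 2 + 2) / 4 = q + 1 by omega,
        show (4 * q + 2) / 2 = 2 * q + 1 by omega]
      ring
    · rw [show (4 * q + 3) / 4 = q by omega, show (4 * q + 3 + 2) / 4 = q + 1 by omega,
        show (4 * q + 3) / 2 = 2 * q + 1 by omega]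
      ring

end Pool.Agent.H623R3.STPair
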